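import Mathlib
import Pool.Agent.X202.Squeeze

set_option autoImplicit false

/-!
# A bidemocratic basis of `ℓ_2` that cannot be squeezed between Lorentz spaces

Split `ℕ` into consecutive blocks `σ_P`, `|σ_P| = 4^P`, let `(u_i)` be the unit vectors of `ℓ_2` and
`w_P = 2^{-P} ∑_{i ∈ σ_P} u_i`. Group the even and the odd blocks: the `n`-th group consists of `2^n`
even blocks and `2^n` odd blocks. Put `z_P = 2^{-n/2} ∑ w_Q` over the odd blocks `Q` of the group
if `P` is an even block of the `n`-th group, `z_P = 0` if `P` is odd, and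
`x_i = u_i + 2^{-P} z_P` for `i ∈ σ_P`. The coordinate functionals are of the same form. Since
`∑_{i ∈ A} 2^{-P(i)} ≤ 3 √|A|`, both the basis and the functionals satisfy `‖∑_{i ∈ A} ± x_i‖ ≤ 7 √|A|`.
The coefficients `a_i = 2^{-P(i)}` over the even blocks of the `n`-th group have
`‖a‖_{2,q} ≤ C 2^{n/q}`, while `∑ a_i x_i` has norm at least `2^n`.
-/

open Filter Topology

namespace Pool.Agent.Results.MP_c77635_an.NoLorentzSqueeze

section Definitions

variable {H : Type} [NormedAddCommGroup H] [InnerProductSpace ℝ H]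

/-- `x` is a basis of `H` with coordinate functionals `x'` (identified with vectors of `H`):
biorthogonal, linearly dense, total, and both bounded. -/
def IsBasis (x x' : ℕ → H) : Prop :=
  (∀ n k, inner ℝ (x' n) (x k) = if n = k then (1 : ℝ) else 0) ∧
  Dense (Submodule.span ℝ (Set.range x) : Set H) ∧
  (∀ f : H, (∀ n, inner ℝ (x' n) f = 0) → f = 0) ∧
  ∃ K : ℝ, ∀ n, ‖x n‖ ≤ K ∧ ‖x' n‖ ≤ K

/-- `φ_m`, the supremum of the norms of signed sums over at most `m` elements of `x`. -/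
noncomputable def phi (x : ℕ → H) (m : ℕ) : ℝ :=
  sSup {r | ∃ (A : Finset ℕ) (ε : ℕ → ℝ), A.card ≤ m ∧ (∀ n, |ε n| = 1) ∧
    r = ‖∑ n ∈ A, ε n • x n‖}

/-- Bidemocratic: `φ_m φ*_m / m` is bounded. -/
def IsBidemocratic (x x' : ℕ → H) : Prop :=
  ∃ C : ℝ, ∀ m : ℕ, 1 ≤ m → phi x m * phi x' m / m ≤ C

/-- Non-increasing rearrangement: `rearr a m` is `a*_{m+1}`, the `(m+1)`-st largest modulus. -/
noncomputable def rearr (a : ℕ → ℝ) (m : ℕ) : ℝ :=
  sInf {t : ℝ | 0 ≤ t ∧ {n | t < |a n|}.encard ≤ m}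

/-- The norm of `ℓ_{2,q}`: the `q`-th root of `∑_{m ≥ 0} (a*_{m+1})^q (m+1)^{q/2-1}`. -/
noncomputable def lorentz (q : ℝ) (a : ℕ → ℝ) : ℝ :=
  (∑' m : ℕ, rearr a m ^ q * ((m : ℝ) + 1) ^ (q / 2 - 1)) ^ (1 / q)

/-- The embedding of `ℓ_{2,q}` into `H` induced by `x`. -/
def LorentzEmbeds (q : ℝ) (x : ℕ → H) : Prop :=
  ∃ C : ℝ, ∀ a : ℕ →₀ ℝ, ‖∑ n ∈ a.support, a n • x n‖ ≤ C * lorentz q a

end Definitions

/-- **Main result.** There is a bidemocratic basis of real `ℓ_2` for which the embedding of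
`ℓ_{2,q}` into `ℓ_2` fails for every `q > 1`. -/
theorem result : ∃ x x' : ℕ → lp (fun _ : ℕ => ℝ) 2,
    IsBasis x x' ∧ IsBidemocratic x x' ∧ ∀ q : ℝ, 1 < q → ¬ LorentzEmbeds q x := by
  obtain ⟨B⟩ : Nonempty (HilbertBasis ℕ ℝ (lp (fun _ : ℕ => ℝ) 2)) := ⟨default⟩
  have hu : Orthonormal ℝ (B : ℕ → lp (fun _ : ℕ => ℝ) 2) := B.orthonormal
  have hd : Dense (Submodule.span ℝ (Set.range (B : ℕ → lp (fun _ : ℕ => ℝ) 2)) :
      Set (lp (fun _ : ℕ => ℝ) 2)) := by
    rw [dense_iff_closure_eq, ← Submodule.topologicalClosure_coe, B.dense_span]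
    rfl
  refine ⟨X202.DKK.b X202.Squeeze.mx B, X202.DKK.b' X202.Squeeze.mx B,
    ⟨X202.DKK.biorth _ hu, X202.DKK.span_b _ hd, fun f hf => ?_,
      3, fun n => ⟨X202.DKK.norm_b _ hu n, X202.DKK.norm_b' _ hu n⟩⟩, ?_,
    fun q hq => X202.Squeeze.not_embed hu hq⟩
  · have h1 := X202.DKK.span_b' X202.Squeeze.mx hd
    have h2 : ∀ v ∈ Submodule.span ℝ (Set.range (X202.DKK.b' X202.Squeeze.mx B)),
        inner ℝ v f = 0 := by
      intro v hv
      induction hv using Submodule.span_induction with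
      | mem v hv => obtain ⟨n, rfl⟩ := hv; exact hf n
      | zero => exact inner_zero_left _
      | add v w _ _ h3 h4 => rw [inner_add_left, h3, h4, add_zero]
      | smul r v _ h3 => rw [inner_smul_left, h3, mul_zero]
    have h3 : inner ℝ f f = 0 := by
      refine h1.induction (P := fun v => inner ℝ v f = (0 : ℝ)) (fun v hv => h2 v hv)
        (isClosed_eq (by fun_prop) continuous_const) f
    exact inner_self_eq_zero.1 h3
  · have hphi : ∀ (y : ℕ → lp (fun _ : ℕ => ℝ) 2), (∀ (A : Finset ℕ) (ε : ℕ → ℝ),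
        (∀ i, |ε i| ≤ 1) → ‖∑ i ∈ A, ε i • y i‖ ≤ 7 * √A.card) → ∀ m : ℕ,
        0 ≤ phi y m ∧ phi y m ≤ 7 * √m := by
      intro y hy m
      refine ⟨Real.sSup_nonneg ?_, Real.sSup_le ?_ (by positivity)⟩
      · rintro _ ⟨A, ε, _, _, rfl⟩
        exact norm_nonneg _
      · rintro _ ⟨A, ε, hA, hε, rfl⟩
        refine (hy A ε fun i => (hε i).le).trans ?_
        have : √(A.card : ℝ) ≤ √m := Real.sqrt_le_sqrt (by exact_mod_cast hA)
        linarith
    refine ⟨49, fun m hm => ?_⟩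
    have h1 := hphi _ (X202.DKK.upper X202.Squeeze.mx hu) m
    have h2 := hphi _ (X202.DKK.upper' X202.Squeeze.mx hu) m
    have hm0 : (0 : ℝ) < m := by exact_mod_cast hm
    rw [div_le_iff₀ hm0]
    have h3 := mul_le_mul h1.2 h2.2 h2.1 (by positivity)
    have h4 := Real.mul_self_sqrt hm0.le
    nlinarith

end Pool.Agent.Results.MP_c77635_an.NoLorentzSqueeze
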